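import Mathlib

open Finset

namespace Pool.Agent.Helper50.ShortRel

/-- Distinct (finite) subsets of `B` have distinct sums. -/
def DistinctSums (B : Finset ℤ) : Prop :=
  ∀ C D : Finset ℤ, C ⊆ B → D ⊆ B → (∑ x ∈ C, x) = (∑ x ∈ D, x) → C = D

/-- The proportional property with constant `δ`. -/
def Proportional (δ : ℝ) (Λ : Set ℤ) : Prop :=
  ∀ A : Finset ℤ, (↑A : Set ℤ) ⊆ Λ →
    ∃ B : Finset ℤ, B ⊆ A ∧ DistinctSums B ∧ δ * (A.card : ℝ) ≤ (B.card : ℝ)

/-- `T` has no nontrivial integer relation of total length at most `ℓ`. -/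
def NoShortRelation (ℓ : ℕ) (T : Set ℤ) : Prop :=
  ∀ F : Finset ℤ, (↑F : Set ℤ) ⊆ T → ∀ c : ℤ → ℤ,
    (∑ x ∈ F, (c x).natAbs) ≤ ℓ → (∑ x ∈ F, c x * x) = 0 → ∀ x ∈ F, c x = 0

/-! ### Counting -/

lemma two_mul_add_one_pow_le (B L : ℕ) (hL : 0 < L) :
    (2 * B + 1) ^ (2 * L) ≤ (4 * L) ^ (2 * L) * 2 ^ B := by
  set q := B / (2 * L) with hq
  set r := B % (2 * L) with hr
  have hB : B = 2 * L * q + r := (Nat.div_add_mod B (2 * L)).symm
  have hrlt : r < 2 * L := Nat.mod_lt _ (by omega)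
  have h1 : 2 * B + 1 ≤ 4 * L * (q + 1) := by
    rw [hB]; nlinarith
  have h2 : q + 1 ≤ 2 ^ q := Nat.lt_pow_self (by norm_num)
  calc (2 * B + 1) ^ (2 * L) ≤ (4 * L * 2 ^ q) ^ (2 * L) :=
        Nat.pow_le_pow_left (h1.trans (Nat.mul_le_mul_left _ h2)) _
    _ = (4 * L) ^ (2 * L) * 2 ^ (q * (2 * L)) := by rw [mul_pow, ← pow_mul 2 q]
    _ ≤ (4 * L) ^ (2 * L) * 2 ^ B := by
        apply Nat.mul_le_mul_left
        apply Nat.pow_le_pow_right (by norm_num)
        rw [hB]; nlinarith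

lemma counting (D Z : Finset ℤ) (hD : DistinctSums D) (M : ℤ) (hM : M ≠ 0) (L : ℕ) (hL : 0 < L)
    (b : ℤ → ℤ → ℤ) (hb : ∀ y ∈ D, M * y = ∑ z ∈ Z, b y z * z)
    (hbL : ∀ y ∈ D, ∑ z ∈ Z, (b y z).natAbs ≤ L) (w : ℕ) (hw : 4 * L ≤ 2 ^ w) :
    D.card ≤ 2 * w * Z.card := by
  classical
  set B : ℤ → ℕ := fun z => ∑ y ∈ D, (b y z).natAbs with hBdef
  have hsum : ∑ z ∈ Z, B z ≤ L * D.card := by
    rw [hBdef, Finset.sum_comm]
    calc ∑ y ∈ D, ∑ z ∈ Z, (b y z).natAbs ≤ ∑ y ∈ D, L := Finset.sum_le_sum hbL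
      _ = L * D.card := by rw [Finset.sum_const, smul_eq_mul, mul_comm]
  have hinj : 2 ^ D.card ≤ ∏ z ∈ Z, (2 * B z + 1) := by
    have hcard : (Finset.pi Z (fun z => Finset.Icc (-(B z : ℤ)) (B z))).card
        = ∏ z ∈ Z, (2 * B z + 1) := by
      rw [Finset.card_pi]
      apply Finset.prod_congr rfl
      intro z _
      rw [Int.card_Icc]; omega
    rw [← hcard, ← Finset.card_powerset]
    apply Finset.card_le_card_of_injOn (fun E => fun z _ => ∑ y ∈ E, b y z)
    · intro E hE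
      have hE' : E ⊆ D := Finset.mem_powerset.1 hE
      simp only [Finset.mem_coe, Finset.mem_pi, Finset.mem_Icc]
      intro z _
      have : |∑ y ∈ E, b y z| ≤ (B z : ℤ) := by
        calc |∑ y ∈ E, b y z| ≤ ∑ y ∈ E, |b y z| := Finset.abs_sum_le_sum_abs _ _
          _ ≤ ∑ y ∈ D, |b y z| :=
            Finset.sum_le_sum_of_subset_of_nonneg hE' (fun _ _ _ => abs_nonneg _)
          _ = (B z : ℤ) := by
            rw [hBdef]; push_cast; rfl
      exact abs_le.1 this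
    · intro E hE E' hE' h
      have hE1 : E ⊆ D := Finset.mem_powerset.1 hE
      have hE2 : E' ⊆ D := Finset.mem_powerset.1 hE'
      apply hD E E' hE1 hE2
      have key : ∀ E : Finset ℤ, E ⊆ D → M * ∑ y ∈ E, y = ∑ z ∈ Z, (∑ y ∈ E, b y z) * z := by
        intro E hE
        rw [Finset.mul_sum, Finset.sum_congr rfl (fun y hy => hb y (hE hy)), Finset.sum_comm]
        apply Finset.sum_congr rfl
        intro z _
        rw [Finset.sum_mul]
      have h3 : M * ∑ y ∈ E, y = M * ∑ y ∈ E', y := by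
        rw [key E hE1, key E' hE2]
        apply Finset.sum_congr rfl
        intro z hz
        have := congrFun (congrFun h z) hz
        simp only at this
        rw [this]
      exact mul_left_cancel₀ hM h3
  have h4 : 2 ^ (2 * L * D.card) ≤ 2 ^ (2 * w * L * Z.card + L * D.card) := by
    calc 2 ^ (2 * L * D.card) = (2 ^ D.card) ^ (2 * L) := by rw [← pow_mul]; ring_nf
      _ ≤ (∏ z ∈ Z, (2 * B z + 1)) ^ (2 * L) := Nat.pow_le_pow_left hinj _
      _ = ∏ z ∈ Z, (2 * B z + 1) ^ (2 * L) := by rw [Finset.prod_pow]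
      _ ≤ ∏ z ∈ Z, ((2 ^ w) ^ (2 * L) * 2 ^ B z) := by
          apply Finset.prod_le_prod'
          intro z _
          exact (two_mul_add_one_pow_le (B z) L hL).trans
            (Nat.mul_le_mul_right _ (Nat.pow_le_pow_left hw _))
      _ = 2 ^ (2 * w * L * Z.card + ∑ z ∈ Z, B z) := by
          rw [Finset.prod_mul_distrib, Finset.prod_const, Finset.prod_pow_eq_pow_sum,
            ← pow_mul, ← pow_mul, ← pow_add]
          ring_nf
      _ ≤ 2 ^ (2 * w * L * Z.card + L * D.card) :=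
          Nat.pow_le_pow_right (by norm_num) (Nat.add_le_add_left hsum _)
  have h5 : 2 * L * D.card ≤ 2 * w * L * Z.card + L * D.card :=
    (Nat.pow_le_pow_iff_right (by norm_num)).1 h4
  have h6 : L * D.card ≤ L * (2 * w * Z.card) := by nlinarith
  exact Nat.le_of_mul_le_mul_left h6 hL

/-! ### Averaging over random subsets -/

/-- Weight of the subset `Z` of `Y` for the product measure of density `p`. -/
noncomputable def wt (p : ℝ) (Y Z : Finset ℤ) : ℝ := p ^ Z.card * (1 - p) ^ (Y \ Z).card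

lemma wt_nonneg {p : ℝ} (h0 : 0 ≤ p) (h1 : p ≤ 1) (Y Z : Finset ℤ) : 0 ≤ wt p Y Z :=
  mul_nonneg (pow_nonneg h0 _) (pow_nonneg (by linarith) _)

lemma sum_wt_subset (p : ℝ) (Y S : Finset ℤ) (hS : S ⊆ Y) :
    ∑ Z ∈ Y.powerset, wt p Y Z * (if S ⊆ Z then 1 else 0) = p ^ S.card := by
  classical
  have h := Finset.prod_add (fun _ : ℤ => p) (fun i => if i ∈ S then 0 else (1 - p)) Y
  have hl : ∏ i ∈ Y, (p + (if i ∈ S then 0 else (1 - p))) = p ^ S.card := by
    have : ∀ i ∈ Y, (p + (if i ∈ S then 0 else (1 - p))) = if i ∈ S then p else 1 := by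
      intro i _
      split_ifs <;> ring
    rw [Finset.prod_congr rfl this, Finset.prod_ite, Finset.prod_const, Finset.prod_const_one,
      mul_one]
    congr 2
    ext x
    simp only [Finset.mem_filter]
    exact ⟨fun h => h.2, fun h => ⟨hS h, h⟩⟩
  rw [← hl, h]
  apply Finset.sum_congr rfl
  intro Z hZ
  have hZY : Z ⊆ Y := Finset.mem_powerset.1 hZ
  rw [wt, Finset.prod_const, mul_assoc]
  congr 1
  by_cases hSZ : S ⊆ Z
  · rw [if_pos hSZ, mul_one, ← Finset.prod_const]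
    apply Finset.prod_congr rfl
    intro x hx
    rw [if_neg]
    intro hxS
    exact (Finset.mem_sdiff.1 hx).2 (hSZ hxS)
  · rw [if_neg hSZ, mul_zero]
    obtain ⟨x, hxS, hxZ⟩ := Finset.not_subset.1 hSZ
    symm
    apply Finset.prod_eq_zero (Finset.mem_sdiff.2 ⟨hS hxS, hxZ⟩)
    rw [if_pos hxS]

lemma prob_captured (m s : ℕ) (hm : 0 < m) (Y : Finset ℤ) (Fam : Finset (Finset ℤ))
    (h1 : ∀ S ∈ Fam, S ⊆ Y ∧ S.card ≤ s)
    (h2 : ∀ S ∈ Fam, ∀ T ∈ Fam, S ≠ T → Disjoint S T)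
    (h3 : 3 * m ^ s ≤ Fam.card) :
    (3 / 4 : ℝ) ≤ ∑ Z ∈ Y.powerset, wt (1 / m) Y Z * (if ∃ S ∈ Fam, S ⊆ Z then 1 else 0) := by
  classical
  set p : ℝ := 1 / m with hp
  have hmR : (0 : ℝ) < m := by exact_mod_cast hm
  have hm1 : (1 : ℝ) ≤ m := by exact_mod_cast hm
  have hp0 : 0 ≤ p := by positivity
  have hp1 : p ≤ 1 := by
    rw [hp, div_le_one hmR]; exact hm1
  have hpm : p * m = 1 := by rw [hp]; field_simp
  set τ : ℝ := (Fam.card : ℝ) with hτ
  have hτ3 : 3 * (m : ℝ) ^ s ≤ τ := by rw [hτ]; exact_mod_cast h3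
  have hms : (0 : ℝ) < (m : ℝ) ^ s := by positivity
  have hτpos : 0 < τ := by linarith
  set X : Finset ℤ → ℝ := fun Z => ∑ S ∈ Fam, (m : ℝ) ^ S.card * (if S ⊆ Z then 1 else 0) with hX
  have hEX : ∑ Z ∈ Y.powerset, wt p Y Z * X Z = τ := by
    have : ∀ Z ∈ Y.powerset, wt p Y Z * X Z
        = ∑ S ∈ Fam, (m : ℝ) ^ S.card * (wt p Y Z * (if S ⊆ Z then 1 else 0)) := by
      intro Z _
      rw [hX, Finset.mul_sum]
      apply Finset.sum_congr rfl
      intro S _
      ring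
    rw [Finset.sum_congr rfl this, Finset.sum_comm]
    have : ∀ S ∈ Fam, ∑ Z ∈ Y.powerset, (m : ℝ) ^ S.card * (wt p Y Z * (if S ⊆ Z then 1 else 0))
        = 1 := by
      intro S hS
      rw [← Finset.mul_sum, sum_wt_subset p Y S (h1 S hS).1, ← mul_pow, mul_comm (m : ℝ), hpm,
        one_pow]
    rw [Finset.sum_congr rfl this, Finset.sum_const, nsmul_eq_mul, mul_one]
  have hEX2 : ∑ Z ∈ Y.powerset, wt p Y Z * (X Z) ^ 2 ≤ τ ^ 2 + τ * (m : ℝ) ^ s := by
    have hexp : ∀ Z ∈ Y.powerset, wt p Y Z * (X Z) ^ 2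
        = ∑ S ∈ Fam, ∑ T ∈ Fam, (m : ℝ) ^ S.card * (m : ℝ) ^ T.card *
            (wt p Y Z * (if S ∪ T ⊆ Z then 1 else 0)) := by
      intro Z _
      rw [hX, pow_two, Finset.sum_mul_sum, Finset.mul_sum]
      apply Finset.sum_congr rfl
      intro S _
      rw [Finset.mul_sum]
      apply Finset.sum_congr rfl
      intro T _
      have : (if S ∪ T ⊆ Z then (1 : ℝ) else 0)
          = (if S ⊆ Z then 1 else 0) * (if T ⊆ Z then 1 else 0) := by
        by_cases hs : S ⊆ Z <;> by_cases ht : T ⊆ Z <;>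
          simp [Finset.union_subset_iff, hs, ht]
      rw [this]; ring
    rw [Finset.sum_congr rfl hexp, Finset.sum_comm]
    have hST : ∀ S ∈ Fam, ∀ T ∈ Fam,
        ∑ Z ∈ Y.powerset, (m : ℝ) ^ S.card * (m : ℝ) ^ T.card *
            (wt p Y Z * (if S ∪ T ⊆ Z then 1 else 0))
        ≤ 1 + (if S = T then (m : ℝ) ^ s else 0) := by
      intro S hS T hT
      rw [← Finset.mul_sum, sum_wt_subset p Y (S ∪ T)
        (Finset.union_subset (h1 S hS).1 (h1 T hT).1)]
      by_cases hST : S = T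
      · subst hST
        rw [if_pos rfl, Finset.union_idempotent]
        have e : (m : ℝ) ^ S.card * (m : ℝ) ^ S.card * p ^ S.card = (m : ℝ) ^ S.card := by
          rw [mul_assoc, ← mul_pow (m : ℝ) p, mul_comm (m : ℝ) p, hpm, one_pow, mul_one]
        rw [e]
        have : (m : ℝ) ^ S.card ≤ (m : ℝ) ^ s := pow_le_pow_right₀ hm1 (h1 S hS).2
        linarith
      · rw [if_neg hST, Finset.card_union_of_disjoint (h2 S hS T hT hST), pow_add, add_zero]
        have e : (m : ℝ) ^ S.card * (m : ℝ) ^ T.card * (p ^ S.card * p ^ T.card)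
            = (p * m) ^ S.card * (p * m) ^ T.card := by
          rw [mul_pow, mul_pow]; ring
        rw [e, hpm, one_pow, one_pow, mul_one]
    calc ∑ S ∈ Fam, ∑ Z ∈ Y.powerset, ∑ T ∈ Fam, (m : ℝ) ^ S.card * (m : ℝ) ^ T.card *
            (wt p Y Z * (if S ∪ T ⊆ Z then 1 else 0))
        = ∑ S ∈ Fam, ∑ T ∈ Fam, ∑ Z ∈ Y.powerset, (m : ℝ) ^ S.card * (m : ℝ) ^ T.card *
            (wt p Y Z * (if S ∪ T ⊆ Z then 1 else 0)) := by
          apply Finset.sum_congr rfl
          intro S _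
          rw [Finset.sum_comm]
      _ ≤ ∑ S ∈ Fam, ∑ T ∈ Fam, (1 + (if S = T then (m : ℝ) ^ s else 0)) :=
          Finset.sum_le_sum fun S hS => Finset.sum_le_sum fun T hT => hST S hS T hT
      _ = ∑ S ∈ Fam, (τ + (m : ℝ) ^ s) := by
          apply Finset.sum_congr rfl
          intro S hS
          rw [Finset.sum_add_distrib, Finset.sum_const, nsmul_eq_mul, mul_one,
            Finset.sum_ite_eq, if_pos hS]
      _ = τ ^ 2 + τ * (m : ℝ) ^ s := by
          rw [Finset.sum_const, nsmul_eq_mul]; ring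
  set a : ℝ := τ + (m : ℝ) ^ s with ha
  have hapos : 0 < a := by positivity
  have hpt : ∀ Z ∈ Y.powerset, wt p Y Z * (2 * X Z / a - (X Z) ^ 2 / a ^ 2)
      ≤ wt p Y Z * (if ∃ S ∈ Fam, S ⊆ Z then 1 else 0) := by
    intro Z _
    apply mul_le_mul_of_nonneg_left _ (wt_nonneg hp0 hp1 Y Z)
    by_cases h : ∃ S ∈ Fam, S ⊆ Z
    · rw [if_pos h]
      have : 1 - (2 * X Z / a - (X Z) ^ 2 / a ^ 2) = (1 - X Z / a) ^ 2 := by
        field_simp; ring
      have h2 : 0 ≤ (1 - X Z / a) ^ 2 := sq_nonneg _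
      linarith
    · rw [if_neg h]
      have hX0 : X Z = 0 := by
        rw [hX]
        apply Finset.sum_eq_zero
        intro S hS
        rw [if_neg (fun hSZ => h ⟨S, hS, hSZ⟩), mul_zero]
      rw [hX0]; simp
  have hlow : 2 * τ / a - (τ ^ 2 + τ * (m : ℝ) ^ s) / a ^ 2
      ≤ ∑ Z ∈ Y.powerset, wt p Y Z * (if ∃ S ∈ Fam, S ⊆ Z then 1 else 0) := by
    refine le_trans ?_ (Finset.sum_le_sum hpt)
    have : ∑ Z ∈ Y.powerset, wt p Y Z * (2 * X Z / a - (X Z) ^ 2 / a ^ 2)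
        = 2 * (∑ Z ∈ Y.powerset, wt p Y Z * X Z) / a
          - (∑ Z ∈ Y.powerset, wt p Y Z * (X Z) ^ 2) / a ^ 2 := by
      rw [Finset.mul_sum, Finset.sum_div, Finset.sum_div, ← Finset.sum_sub_distrib]
      apply Finset.sum_congr rfl
      intro Z _
      ring
    rw [this, hEX]
    have : (∑ Z ∈ Y.powerset, wt p Y Z * (X Z) ^ 2) / a ^ 2
        ≤ (τ ^ 2 + τ * (m : ℝ) ^ s) / a ^ 2 :=
      div_le_div_of_nonneg_right hEX2 (by positivity)
    linarith
  refine le_trans ?_ hlow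
  have e : 2 * τ / a - (τ ^ 2 + τ * (m : ℝ) ^ s) / a ^ 2 = τ / a := by
    have : τ ^ 2 + τ * (m : ℝ) ^ s = τ * a := by rw [ha]; ring
    rw [this]; field_simp; ring
  rw [e, le_div_iff₀ hapos, ha]
  linarith

lemma averaging (Y : Finset ℤ) (hY : Y.Nonempty) (s m K : ℕ) (hm : 0 < m)
    (Fam : ℤ → Finset (Finset ℤ))
    (h1 : ∀ y ∈ Y, ∀ S ∈ Fam y, S ⊆ Y ∧ S.card ≤ s)
    (h2 : ∀ y ∈ Y, ∀ S ∈ Fam y, ∀ T ∈ Fam y, S ≠ T → Disjoint S T)
    (h3 : ∀ y ∈ Y, 3 * m ^ s ≤ (Fam y).card)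
    (hK : ∀ Z ⊆ Y, (Y.filter (fun y => ∃ S ∈ Fam y, S ⊆ Z)).card ≤ K * Z.card) :
    3 * m ≤ 4 * K := by
  classical
  set p : ℝ := 1 / m with hp
  have hmR : (0 : ℝ) < m := by exact_mod_cast hm
  have hm1 : (1 : ℝ) ≤ m := by exact_mod_cast hm
  have hp0 : 0 ≤ p := by positivity
  have hp1 : p ≤ 1 := by
    rw [hp, div_le_one hmR]; exact hm1
  have hYpos : (0 : ℝ) < Y.card := by exact_mod_cast hY.card_pos
  have hlow : (3 / 4 : ℝ) * Y.card ≤ ∑ Z ∈ Y.powerset,
      wt p Y Z * ((Y.filter (fun y => ∃ S ∈ Fam y, S ⊆ Z)).card : ℝ) := by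
    have e : ∀ Z ∈ Y.powerset, wt p Y Z * ((Y.filter (fun y => ∃ S ∈ Fam y, S ⊆ Z)).card : ℝ)
        = ∑ y ∈ Y, wt p Y Z * (if ∃ S ∈ Fam y, S ⊆ Z then 1 else 0) := by
      intro Z _
      rw [← Finset.mul_sum, Finset.sum_boole]
    rw [Finset.sum_congr rfl e, Finset.sum_comm]
    calc (3 / 4 : ℝ) * Y.card = ∑ y ∈ Y, (3 / 4 : ℝ) := by
          rw [Finset.sum_const, nsmul_eq_mul, mul_comm]
      _ ≤ _ := Finset.sum_le_sum fun y hy => prob_captured m s hm Y (Fam y) (h1 y hy) (h2 y hy)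
          (h3 y hy)
  have hup : ∑ Z ∈ Y.powerset,
      wt p Y Z * ((Y.filter (fun y => ∃ S ∈ Fam y, S ⊆ Z)).card : ℝ) ≤ K * (Y.card * p) := by
    calc ∑ Z ∈ Y.powerset,
        wt p Y Z * ((Y.filter (fun y => ∃ S ∈ Fam y, S ⊆ Z)).card : ℝ)
        ≤ ∑ Z ∈ Y.powerset, wt p Y Z * ((K : ℝ) * Z.card) := by
          apply Finset.sum_le_sum
          intro Z hZ
          apply mul_le_mul_of_nonneg_left _ (wt_nonneg hp0 hp1 Y Z)
          exact_mod_cast hK Z (Finset.mem_powerset.1 hZ)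
      _ = K * ∑ Z ∈ Y.powerset, ∑ y ∈ Y, wt p Y Z * (if {y} ⊆ Z then 1 else 0) := by
          rw [Finset.mul_sum]
          apply Finset.sum_congr rfl
          intro Z hZ
          have hZY : Z ⊆ Y := Finset.mem_powerset.1 hZ
          rw [← Finset.mul_sum, Finset.sum_boole]
          have : (Y.filter (fun y => {y} ⊆ Z)) = Z := by
            ext x
            simp only [Finset.mem_filter, Finset.singleton_subset_iff]
            exact ⟨fun h => h.2, fun h => ⟨hZY h, h⟩⟩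
          rw [this]; ring
      _ = K * ∑ y ∈ Y, p := by
          rw [Finset.sum_comm]
          congr 1
          apply Finset.sum_congr rfl
          intro y hy
          rw [sum_wt_subset p Y {y} (Finset.singleton_subset_iff.2 hy), Finset.card_singleton,
            pow_one]
      _ = K * (Y.card * p) := by rw [Finset.sum_const, nsmul_eq_mul]
  have h := hlow.trans hup
  have h' : (3 / 4 : ℝ) * Y.card ≤ (K * p) * Y.card := by linarith
  have h'' : (3 / 4 : ℝ) ≤ K * p := le_of_mul_le_mul_right h' hYpos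
  rw [hp, mul_one_div, le_div_iff₀ hmR] at h''
  have : (3 : ℝ) * m ≤ 4 * K := by linarith
  exact_mod_cast this

/-! ### Captured elements -/

/-- `S` captures `y`: some relation of length at most `ℓ` has support `S ∪ {y}`. -/
def Captures (ℓ : ℕ) (y : ℤ) (S : Finset ℤ) : Prop :=
  ∃ a : ℤ, ∃ c : ℤ → ℤ, a ≠ 0 ∧ (∀ z ∈ S, c z ≠ 0) ∧
    a.natAbs + ∑ z ∈ S, (c z).natAbs ≤ ℓ ∧ a * y = ∑ z ∈ S, c z * z

lemma Captures.card_le {ℓ : ℕ} {y : ℤ} {S : Finset ℤ} (h : Captures ℓ y S) : S.card ≤ ℓ := by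
  obtain ⟨a, c, -, hc, hl, -⟩ := h
  calc S.card = ∑ z ∈ S, 1 := by simp
    _ ≤ ∑ z ∈ S, (c z).natAbs := Finset.sum_le_sum fun z hz => Int.natAbs_pos.2 (hc z hz)
    _ ≤ ℓ := by omega

lemma Proportional.zero_notMem {δ : ℝ} (hδ : 0 < δ) {Λ : Set ℤ} (h : Proportional δ Λ) :
    (0 : ℤ) ∉ Λ := by
  intro h0
  obtain ⟨B, hB, hD, hc⟩ := h {0} (by simpa using h0)
  have hpos : (0 : ℝ) < B.card := by
    refine lt_of_lt_of_le ?_ hc
    simpa using hδ
  have hB0 : B = {0} := by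
    have hne : B.Nonempty := Finset.card_pos.1 (by exact_mod_cast hpos)
    exact (Finset.subset_singleton_iff.1 hB).resolve_left hne.ne_empty
  have := hD ∅ B (Finset.empty_subset _) (Finset.Subset.refl _) (by rw [hB0]; simp)
  rw [hB0] at this
  exact absurd this (Finset.singleton_ne_empty _).symm

lemma captured_card_le {δ : ℝ} (hδ : 0 < δ) {Λ : Set ℤ} (hΛ : Proportional δ Λ) (ℓ w K : ℕ)
    (hw : 4 * (ℓ.factorial * ℓ + 1) ≤ 2 ^ w) (hK : (2 * w : ℝ) / δ ≤ K)
    (Y Z : Finset ℤ) (hY : (↑Y : Set ℤ) ⊆ Λ) (P : ℤ → Prop) [DecidablePred P]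
    (hP : ∀ y ∈ Y, P y → ∃ S : Finset ℤ, S ⊆ Z ∧ Captures ℓ y S) :
    (Y.filter P).card ≤ K * Z.card := by
  classical
  obtain ⟨D, hD, hDS, hDc⟩ := hΛ (Y.filter P) (fun y hy => hY (Finset.filter_subset _ _ hy))
  have hex : ∀ y : ℤ, ∃ b : ℤ → ℤ, y ∈ D → ((ℓ.factorial : ℤ) * y = ∑ z ∈ Z, b z * z ∧
      ∑ z ∈ Z, (b z).natAbs ≤ ℓ.factorial * ℓ + 1) := by
    intro y
    by_cases hy : y ∈ D
    · have hyf := Finset.mem_filter.1 (hD hy)
      obtain ⟨S, hSZ, a, c, ha, hc, hl, he⟩ := hP y hyf.1 hyf.2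
      have hadvd : a ∣ (ℓ.factorial : ℤ) := by
        rw [← Int.natAbs_dvd]
        exact_mod_cast Nat.dvd_factorial (Int.natAbs_pos.2 ha) (by omega)
      obtain ⟨k, hk⟩ := hadvd
      refine ⟨fun z => if z ∈ S then k * c z else 0, fun _ => ⟨?_, ?_⟩⟩
      · have : ∑ z ∈ Z, (if z ∈ S then k * c z else 0) * z = ∑ z ∈ S, k * c z * z := by
          rw [← Finset.sum_subset hSZ]
          · apply Finset.sum_congr rfl
            intro z hz
            rw [if_pos hz]
          · intro z _ hz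
            rw [if_neg hz, zero_mul]
        rw [this, hk, mul_comm a k, mul_assoc, he, Finset.mul_sum]
        apply Finset.sum_congr rfl
        intro z _
        ring
      · have : ∑ z ∈ Z, (if z ∈ S then k * c z else 0).natAbs = ∑ z ∈ S, (k * c z).natAbs := by
          rw [← Finset.sum_subset hSZ]
          · apply Finset.sum_congr rfl
            intro z hz
            rw [if_pos hz]
          · intro z _ hz
            rw [if_neg hz, Int.natAbs_zero]
        rw [this]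
        have hkle : k.natAbs ≤ ℓ.factorial := by
          have h1 : ((ℓ.factorial : ℤ)).natAbs = a.natAbs * k.natAbs := by
            rw [hk, Int.natAbs_mul]
          rw [Int.natAbs_natCast] at h1
          rw [h1]
          exact Nat.le_mul_of_pos_left _ (Int.natAbs_pos.2 ha)
        calc ∑ z ∈ S, (k * c z).natAbs = k.natAbs * ∑ z ∈ S, (c z).natAbs := by
              rw [Finset.mul_sum]
              exact Finset.sum_congr rfl fun z _ => Int.natAbs_mul _ _
          _ ≤ ℓ.factorial * ℓ := Nat.mul_le_mul hkle (by omega)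
          _ ≤ ℓ.factorial * ℓ + 1 := Nat.le_succ _
    · exact ⟨fun _ => 0, fun h => absurd h hy⟩
  choose b hb using hex
  have hcount := counting D Z hDS (ℓ.factorial : ℤ) (by exact_mod_cast Nat.factorial_ne_zero ℓ)
    (ℓ.factorial * ℓ + 1) (Nat.succ_pos _) b (fun y hy => (hb y hy).1) (fun y hy => (hb y hy).2)
    w hw
  have h1 : δ * ((Y.filter P).card : ℝ) ≤ 2 * w * Z.card := by
    refine hDc.trans ?_
    exact_mod_cast hcount
  have h2 : ((Y.filter P).card : ℝ) ≤ K * Z.card := by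
    calc ((Y.filter P).card : ℝ) ≤ (2 * w * Z.card) / δ := by
          rw [le_div_iff₀ hδ]; linarith
      _ = (2 * w / δ) * Z.card := by ring
      _ ≤ K * Z.card := by gcongr
  exact_mod_cast h2

/-! ### Few disjoint captures, greedy colouring -/

lemma exists_few {δ : ℝ} (hδ : 0 < δ) {Λ : Set ℤ} (hΛ : Proportional δ Λ) (ℓ w K m : ℕ)
    (hw : 4 * (ℓ.factorial * ℓ + 1) ≤ 2 ^ w) (hK : (2 * w : ℝ) / δ ≤ K) (hm : 0 < m)
    (hmK : 2 * K ≤ m)
    (Y : Finset ℤ) (hY : (↑Y : Set ℤ) ⊆ Λ) (hne : Y.Nonempty) :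
    ∃ y ∈ Y, ∀ Fam : Finset (Finset ℤ), (∀ S ∈ Fam, S ⊆ Y ∧ Captures ℓ y S) →
      (∀ S ∈ Fam, ∀ T ∈ Fam, S ≠ T → Disjoint S T) → Fam.card < 3 * m ^ ℓ := by
  classical
  by_contra hcon
  push Not at hcon
  choose! Fam hF1 hF2 hF3 using hcon
  have := averaging Y hne ℓ m K hm Fam
    (fun y hy S hS => ⟨(hF1 y hy S hS).1, (hF1 y hy S hS).2.card_le⟩) hF2 hF3
    (fun Z _ => captured_card_le hδ hΛ ℓ w K hw hK Y Z hY _
      (fun y hy ⟨S, hS, hSZ⟩ => ⟨S, hSZ, (hF1 y hy S hS).2⟩))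
  omega

lemma exists_transversal {δ : ℝ} (hδ : 0 < δ) {Λ : Set ℤ} (hΛ : Proportional δ Λ)
    (ℓ w K m : ℕ)
    (hw : 4 * (ℓ.factorial * ℓ + 1) ≤ 2 ^ w) (hK : (2 * w : ℝ) / δ ≤ K) (hm : 0 < m)
    (hmK : 2 * K ≤ m)
    (Y : Finset ℤ) (hY : (↑Y : Set ℤ) ⊆ Λ) (hne : Y.Nonempty) :
    ∃ y ∈ Y, ∃ T : Finset ℤ, T.card ≤ 3 * m ^ ℓ * ℓ ∧
      ∀ S ⊆ Y.erase y, Captures ℓ y S → ¬ Disjoint S T := by
  classical
  obtain ⟨y, hy, hfew⟩ := exists_few hδ hΛ ℓ w K m hw hK hm hmK Y hY hne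
  set Fams : Finset (Finset (Finset ℤ)) := (Y.erase y).powerset.powerset.filter
    (fun Fam => (∀ S ∈ Fam, Captures ℓ y S) ∧ (∀ S ∈ Fam, ∀ T ∈ Fam, S ≠ T → Disjoint S T))
    with hFams
  have hFne : Fams.Nonempty := ⟨∅, by simp [hFams]⟩
  obtain ⟨F, hF, hmax⟩ := Finset.exists_max_image Fams Finset.card hFne
  have hF' := Finset.mem_filter.1 hF
  have hFsub : ∀ S ∈ F, S ⊆ Y.erase y := fun S hS =>
    Finset.mem_powerset.1 (Finset.mem_powerset.1 hF'.1 hS)
  refine ⟨y, hy, F.biUnion id, ?_, ?_⟩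
  · have hFc : F.card < 3 * m ^ ℓ := hfew F
      (fun S hS => ⟨(hFsub S hS).trans (Finset.erase_subset _ _), hF'.2.1 S hS⟩) hF'.2.2
    calc (F.biUnion id).card ≤ ∑ S ∈ F, S.card := Finset.card_biUnion_le
      _ ≤ ∑ S ∈ F, ℓ := Finset.sum_le_sum fun S hS => (hF'.2.1 S hS).card_le
      _ = F.card * ℓ := by rw [Finset.sum_const, smul_eq_mul]
      _ ≤ 3 * m ^ ℓ * ℓ := Nat.mul_le_mul_right _ hFc.le
  · intro S hS hcap hdisj
    have hy0 : y ≠ 0 := fun h => hΛ.zero_notMem hδ (h ▸ hY hy)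
    have hSne : S.Nonempty := by
      by_contra h
      rw [Finset.not_nonempty_iff_eq_empty] at h
      subst h
      obtain ⟨a, c, ha, -, -, he⟩ := hcap
      rw [Finset.sum_empty] at he
      exact (mul_ne_zero ha hy0) he
    have hSF : ∀ T ∈ F, Disjoint S T := fun T hT => by
      refine Finset.disjoint_of_subset_right ?_ hdisj
      exact Finset.subset_biUnion_of_mem id hT
    have hSnotin : S ∉ F := by
      intro h
      exact hSne.ne_empty (Finset.disjoint_self_iff_empty S |>.1 (hSF S h))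
    have hins : insert S F ∈ Fams := by
      rw [hFams, Finset.mem_filter]
      refine ⟨?_, ?_, ?_⟩
      · rw [Finset.mem_powerset]
        intro T hT
        rcases Finset.mem_insert.1 hT with h | h
        · exact Finset.mem_powerset.2 (h ▸ hS)
        · exact Finset.mem_powerset.2 (hFsub T h)
      · intro T hT
        rcases Finset.mem_insert.1 hT with h | h
        · exact h ▸ hcap
        · exact hF'.2.1 T h
      · intro T hT U hU hTU
        rcases Finset.mem_insert.1 hT with h | h <;> rcases Finset.mem_insert.1 hU with h' | h'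
        · exact absurd (h.trans h'.symm) hTU
        · exact h ▸ hSF U h'
        · exact h' ▸ (hSF T h).symm
        · exact hF'.2.2 T h U h' hTU
    have := hmax _ hins
    rw [Finset.card_insert_of_notMem hSnotin] at this
    omega

lemma finite_coloring {δ : ℝ} (hδ : 0 < δ) {Λ : Set ℤ} (hΛ : Proportional δ Λ)
    (ℓ w K m : ℕ)
    (hw : 4 * (ℓ.factorial * ℓ + 1) ≤ 2 ^ w) (hK : (2 * w : ℝ) / δ ≤ K) (hm : 0 < m)
    (hmK : 2 * K ≤ m) (Y : Finset ℤ) (hY : (↑Y : Set ℤ) ⊆ Λ) :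
    ∃ χ : ℤ → Fin (3 * m ^ ℓ * ℓ + 1), ∀ i, NoShortRelation ℓ {x | x ∈ Y ∧ χ x = i} := by
  classical
  induction Y using Finset.strongInduction with
  | H Y ih =>
    rcases Y.eq_empty_or_nonempty with hemp | hne
    · refine ⟨fun _ => 0, fun i F hF c _ _ x hx => ?_⟩
      have := (hF hx).1
      rw [hemp] at this
      exact absurd this (Finset.notMem_empty _)
    · obtain ⟨y, hy, T, hTc, hT⟩ := exists_transversal hδ hΛ ℓ w K m hw hK hm hmK Y hY hne
      obtain ⟨χ, hχ⟩ := ih (Y.erase y) (Finset.erase_ssubset hy)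
        (fun x hx => hY (Finset.erase_subset _ _ hx))
      obtain ⟨i, hi⟩ : ∃ i, i ∉ T.image χ := by
        by_contra hcon
        push Not at hcon
        have h1 : (Finset.univ : Finset (Fin (3 * m ^ ℓ * ℓ + 1))) ⊆ T.image χ :=
          fun i _ => hcon i
        have h2 := (Finset.card_le_card h1).trans Finset.card_image_le
        rw [Finset.card_univ, Fintype.card_fin] at h2
        omega
      refine ⟨Function.update χ y i, fun j F hF c hc hs => ?_⟩
      have hne' : ∀ x ∈ F, x ≠ y → x ∈ Y.erase y ∧ χ x = j := by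
        intro x hx hxy
        have h := hF hx
        refine ⟨Finset.mem_erase.2 ⟨hxy, h.1⟩, ?_⟩
        have h2 := h.2
        rwa [Function.update_of_ne hxy] at h2
      have hrest : (∑ x ∈ F.erase y, c x * x) = 0 → ∀ x ∈ F, x ≠ y → c x = 0 := by
        intro h0 x hx hxy
        refine hχ j (F.erase y) ?_ c ?_ h0 x (Finset.mem_erase.2 ⟨hxy, hx⟩)
        · intro z hz
          have hz' := Finset.mem_erase.1 (Finset.mem_coe.1 hz)
          exact hne' z hz'.2 hz'.1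
        · exact (Finset.sum_le_sum_of_subset (Finset.erase_subset _ _)).trans hc
      by_cases hyF : y ∈ F
      · have hsplit : ∑ x ∈ F, c x * x = c y * y + ∑ x ∈ F.erase y, c x * x :=
          (Finset.add_sum_erase F _ hyF).symm
        by_cases hcy : c y = 0
        · rw [hs, hcy, zero_mul, zero_add] at hsplit
          intro x hx
          by_cases hxy : x = y
          · rw [hxy, hcy]
          · exact hrest hsplit.symm x hx hxy
        · exfalso
          set S := (F.erase y).filter (fun x => c x ≠ 0) with hSdef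
          have hSY : S ⊆ Y.erase y := by
            intro x hx
            have hx' := Finset.mem_erase.1 (Finset.mem_filter.1 hx).1
            exact (hne' x hx'.2 hx'.1).1
          have hcap : Captures ℓ y S := by
            refine ⟨- c y, c, neg_ne_zero.2 hcy, fun z hz => (Finset.mem_filter.1 hz).2, ?_, ?_⟩
            · rw [Int.natAbs_neg]
              have h1 : ∑ z ∈ S, (c z).natAbs ≤ ∑ z ∈ F.erase y, (c z).natAbs :=
                Finset.sum_le_sum_of_subset (Finset.filter_subset _ _)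
              have h2 : ∑ x ∈ F, (c x).natAbs = (c y).natAbs + ∑ x ∈ F.erase y, (c x).natAbs :=
                (Finset.add_sum_erase F _ hyF).symm
              omega
            · have h3 : ∑ z ∈ S, c z * z = ∑ x ∈ F.erase y, c x * x := by
                rw [hSdef, Finset.sum_filter_of_ne]
                intro x _ hx hc0
                exact hx (by rw [hc0, zero_mul])
              rw [h3]
              rw [hs] at hsplit
              linarith
          have hnd := hT S hSY hcap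
          rw [Finset.not_disjoint_iff] at hnd
          obtain ⟨z, hzS, hzT⟩ := hnd
          have hz' := Finset.mem_erase.1 (Finset.mem_filter.1 hzS).1
          have hzj := (hne' z hz'.2 hz'.1).2
          have hyj : i = j := by
            have h := (hF hyF).2
            rwa [Function.update_self] at h
          exact hi (Finset.mem_image.2 ⟨z, hzT, hzj.trans hyj.symm⟩)
      · intro x hx
        have hxy : x ≠ y := fun h => hyF (h ▸ hx)
        have hFe : F.erase y = F := Finset.erase_eq_of_notMem hyF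
        exact hrest (by rw [hFe]; exact hs) x hx hxy

theorem main (δ : ℝ) (hδ : 0 < δ) (ℓ : ℕ) :
    ∃ n : ℕ, ∀ Λ : Set ℤ, Proportional δ Λ →
      ∃ f : Fin n → Set ℤ, (∀ i, NoShortRelation ℓ (f i)) ∧ Λ = ⋃ i, f i := by
  classical
  obtain ⟨w, hw⟩ : ∃ w : ℕ, 4 * (ℓ.factorial * ℓ + 1) ≤ 2 ^ w :=
    ⟨_, (Nat.lt_two_pow_self).le⟩
  obtain ⟨K, hK⟩ := exists_nat_ge ((2 * w : ℝ) / δ)
  set m := 2 * K + 1 with hmdef
  refine ⟨3 * m ^ ℓ * ℓ + 1, fun Λ hΛ => ?_⟩
  have hfin : ∀ t : Finset ℤ, ∃ χ : ℤ → Fin (3 * m ^ ℓ * ℓ + 1),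
      ∀ i, NoShortRelation ℓ {x | x ∈ t.filter (fun x => x ∈ Λ) ∧ χ x = i} := fun t =>
    finite_coloring hδ hΛ ℓ w K m hw hK (by omega) (by omega) _
      (fun x hx => (Finset.mem_filter.1 (Finset.mem_coe.1 hx)).2)
  choose g hg using hfin
  obtain ⟨χ, hχ⟩ := Finset.rado_selection g
  refine ⟨fun i => {x | x ∈ Λ ∧ χ x = i}, fun i F hF c hc hs => ?_, ?_⟩
  · obtain ⟨t, hst, ht⟩ := hχ F
    refine hg t i F ?_ c hc hs
    intro x hx
    have hx' := hF hx
    refine ⟨Finset.mem_filter.2 ⟨hst (Finset.mem_coe.1 hx), hx'.1⟩, ?_⟩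
    rw [← ht x (Finset.mem_coe.1 hx)]
    exact hx'.2
  · ext x
    simp

end Pool.Agent.Helper50.ShortRel
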